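import Pool.Agent.Lib.MP_30679c_gt.Main

namespace Pool.Agent.Results.MP_30679c_gt.MinFarthestDistance

open Set
open Pool.Agent.Lib.MP_30679c_gt

/-- Let `γ` be a closed curve of length `π` in Euclidean space of any dimension `d` and `C` its
trace. The least of the farthest distances `δ_x = farDist C x`, `x ∈ C`, exists and is at most
`1`, and it equals `1` if and only if `C` is the relative boundary of a plane convex body of
constant width `1`. -/
theorem result (d : ℕ) (γ : ℝ → EuclideanSpace ℝ (Fin d))
    (hγ : ContinuousOn γ (Icc 0 1)) (hclosed : γ 0 = γ 1)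
    (hlength : eVariationOn γ (Icc 0 1) = ENNReal.ofReal Real.pi) :
    ∃ m : ℝ, IsLeast (farDist (γ '' Icc 0 1) '' (γ '' Icc 0 1)) m ∧ m ≤ 1 ∧
      (m = 1 ↔ ∃ K : Set (EuclideanSpace ℝ (Fin d)), IsPlaneConvexBody K ∧
        HasConstantWidth K 1 ∧ γ '' Icc 0 1 = intrinsicFrontier ℝ K) :=
  main γ hγ hclosed hlength

end Pool.Agent.Results.MP_30679c_gt.MinFarthestDistance
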